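import Pool.Agent.helper68.GB.Spec

/-!
# Project GB (MP_baa4d7_al), row CNZ: every pair of `B` is conjugate into `(D, b(θ))`
-/

set_option autoImplicit false

namespace Pool.Agent.GB

open Pool.Agent.helper58.DC Pool.Agent.DI Pool.Agent.GR Pool.Agent.OB Pool.Agent.DR Pool.Agent.FI Pool.Agent.FI3 Pool.Agent.FI4 Pool.Agent.LE Pool.Agent.BR

theorem CNZ_pai {p : ℕ} {M : Ideal (integralClosure ℤ ℂ)} {G : Type} [Group G] {Q P : Subgroup G} {e f : G → ℂ}
    (hQ : Pai p M Q e) (h : Pin p M Q e P f) : Pai p M P f := by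
  have key : ∀ z : Subgroup G × (G → ℂ), Relation.ReflTransGen (fun a b : Subgroup G × (G → ℂ) => Nin p M a.1 a.2 b.1 b.2) (Q, e) z →
      Pai p M z.1 z.2 := by
    intro z hz
    induction hz with
    | refl => exact hQ
    | tail _ h _ => exact h.r
  exact key (P, f) h

theorem CNZ (hMXZ : MXZ_stmt) (hUNZ : UNZ_stmt) (hNSB : NSB_stmt) (hCJB : CJB_stmt) (hTPR : Pool.Agent.FI.TPR_stmt) (hREP : REP_stmt) :
    CNZ_stmt := by
  intro p M hS G _ _ D x θ χ hR Q e hQ hQe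
  classical
  -- a maximal pair
  obtain ⟨P, f, hP, hmax⟩ : ∃ (P : Subgroup G) (f : G → ℂ), Pin p M Q e P f ∧
      ∀ (R : Subgroup G) (g : G → ℂ), Pin p M Q e R g → Nat.card R ≤ Nat.card P := by
    let S : Set ℕ := {n | ∃ (P : Subgroup G) (f : G → ℂ), Pin p M Q e P f ∧ Nat.card P = n}
    have hb : BddAbove S := by
      refine ⟨Nat.card G, ?_⟩
      rintro n ⟨P, f, _, rfl⟩
      exact Nat.card_le_card_of_injective (fun x : P => (x : G)) Subtype.val_injective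
    have hn : S.Nonempty := ⟨Nat.card Q, Q, e, Relation.ReflTransGen.refl, rfl⟩
    obtain ⟨P, f, hP, hc⟩ := Nat.sSup_mem hn hb
    refine ⟨P, f, hP, fun R g hRg => ?_⟩
    rw [hc]
    exact le_csSup hb ⟨R, g, hRg, rfl⟩
  have hPai := CNZ_pai hQ hP
  have hSB : SB M (⊤ : Subgroup G) (rep M (cz P) f) χ :=
    (((hNSB p M hS G Q P e f).2.2 hP).2 ⊤ le_top le_top).trans hQe
  obtain ⟨g₀, hg₀⟩ := hMXZ p M hS G D x χ hR.chi hR.dfa P f hPai hSB (by
    intro R g hN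
    have h1 : Pin p M Q e R g := Relation.ReflTransGen.tail hP hN
    exact (Subgroup.eq_of_le_of_card_ge hN.le (hmax R g h1)).symm)
  obtain ⟨hT1, hT2, hT3, _, _⟩ := hTPR p M hS G
  have hrep : rep M (cz P) f ∈ IrrOn (cz P) := ((hREP p M hS G (cz P)).2.1 f hPai.bb).1
  have hθ' : cjF g₀ (rep M (cz P) f) ∈ IrrOn (cz D) := by
    have h1 := IrrOn_funMap hrep g₀
    have h2 : cj g₀ (cz P) = cz D := by
      rw [← cj_cz]
      exact congrArg cz hg₀
    rw [h2] at h1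
    exact h1
  obtain ⟨n, _, hn, hnSB⟩ := hUNZ p M hS G ⊤ D x χ (hT1.symm ▸ hR.chi) (hT3 χ D x hR.dfa) le_top θ hR.th
    ((hT2 θ χ).1 hR.ind) (cjF g₀ (rep M (cz P) f)) hθ' ((SB_inner (Subgroup.mem_top g₀) _).trans hSB)
  have hgP : cjS (n * g₀) P = D := by
    have h1 : cj (n * g₀) P = cj n (cj g₀ P) := cj_mul n g₀ P
    have h2 : cj g₀ P = D := hg₀
    rw [h2, cj_nz.2 hn] at h1
    exact h1
  have hgc : cjS (n * g₀) (cz P) = cz D := by
    have h1 : cj (n * g₀) (cz P) = cz (cj (n * g₀) P) := (cj_cz _ _).symm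
    have h2 : cj (n * g₀) P = D := hgP
    rw [h2] at h1
    exact h1
  obtain ⟨c1, c2, _, _, _⟩ := hCJB p M hS G (n * g₀) (cz P) f
  have hbb : cjF (n * g₀) f ∈ BB M (cz D) := by
    have h1 := c1.1 hPai.bb
    rw [hgc] at h1
    exact h1
  have h3 := c2 hPai.bb
  rw [hgc] at h3
  have h4 : SB M (cz D) (rep M (cz D) (cjF (n * g₀) f)) θ := by
    refine h3.trans ?_
    have h5 : cjF (n * g₀) (rep M (cz P) f) = cjF n (cjF g₀ (rep M (cz P) f)) := funMap_mul n g₀ _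
    rw [h5]
    exact hnSB
  obtain ⟨_, r2, r3, _, _⟩ := hREP p M hS G (cz D)
  obtain ⟨r4, r5⟩ := r2 _ hbb
  have h6 : cjF (n * g₀) f = eS (cz D) (Bl M (cz D) θ) := by
    rw [← (r3 _ r4 θ hR.th).2 h4]
    exact r5.symm
  refine ⟨n * g₀, ?_⟩
  have h7 := ((hCJB p M hS G (n * g₀) (cz Q) e).2.2.2.2 Q P f).2.2.1 hP
  rw [hgP, h6] at h7
  exact h7

end Pool.Agent.GB
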